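import Pool.Agent.Helper15.RD.Fc

/-!
# MP_eecf71_ag: the accessory degree of solutions of the general equation by functions of `d` parameters
-/

set_option autoImplicit false

namespace Pool.Agent.Results.MP_eecf71_ag.AccessoryDegree

open Pool.Agent.Helper15.RD IntermediateField

universe u v

theorem result :
    (∀ (k : Type v) (Ω : Type u) [Field k] [IsAlgClosed k] [CharZero k] [Field Ω] [IsAlgClosed Ω]
      [Algebra k Ω] (n : ℕ) (x : Fin n → Ω) (d r : ℕ) (T : ℕ → IntermediateField k Ω),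
      5 ≤ n → AlgebraicIndependent k x → Algebra.IsAlgebraic (adjoin k (Set.range x)) Ω →
      T 0 = coeffField k x → (∀ i < r, Step d (T i) (T (i + 1))) → (∃ i, x i ∈ T r) →
      ∃ i < r, (∀ j, x j ∉ T i) ∧ gam n d ∣ relfinrank (T 0) (T i) ∧
        n ∣ relfinrank (T i) (T r)) ∧
    ∃ C : ℝ, 0 < C ∧ ∀ n d : ℕ, 1 ≤ d → ((n : ℝ) / (C * d)) ^ n ≤ gam n d :=
  ⟨fun _ _ _ _ _ _ _ _ _ x d r T hn hx hΩ h0 hT hr => tower_gam hn x hx hΩ d r T h0 hT hr,
    growth_gam⟩

end Pool.Agent.Results.MP_eecf71_ag.AccessoryDegree
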