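import Pool.Agent.Helper15.RD.Fd

/-!
# MP_eecf71_ag: the greatest common divisor of the degrees of the accessory extensions
-/

set_option autoImplicit false

namespace Pool.Agent.Results.MP_eecf71_ag.OcticTable

open Pool.Agent.Helper15.RD IntermediateField

universe u v

theorem result (k : Type v) (Ω : Type u) [Field k] [IsAlgClosed k] [CharZero k] [Field Ω]
    [IsAlgClosed Ω] [Algebra k Ω] (n : ℕ) (x : Fin n → Ω) (hx : AlgebraicIndependent k x)
    (hΩ : Algebra.IsAlgebraic (adjoin k (Set.range x)) Ω) :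
    (n = 8 → ∀ d m : ℕ, (∀ A : IntermediateField k Ω, coeffField k x ≤ A →
        relfinrank (coeffField k x) A ≠ 0 →
        Step d A (A ⊔ adjoin k (Set.range x)) → m ∣ relfinrank (coeffField k x) A) ↔ m ∣ oct d) ∧
    (4 ≤ n → ∀ d m : ℕ, (n / 2 ≤ d + 1 ∨ (n ≤ 7 ∧ 1 ≤ d) ∨ (n ≤ 11 ∧ 2 ≤ d)) →
      ((∀ A : IntermediateField k Ω, coeffField k x ≤ A → relfinrank (coeffField k x) A ≠ 0 →
        Step d A (A ⊔ adjoin k (Set.range x)) → m ∣ relfinrank (coeffField k x) A) ↔
      m ∣ gam n d)) ∧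
    (∀ (d : ℕ) (A : IntermediateField k Ω), coeffField k x ≤ A →
      relfinrank (coeffField k x) A ≠ 0 → Step d A (A ⊔ adjoin k (Set.range x)) →
      gam n d ∣ relfinrank (coeffField k x) A) ∧
    (∀ p d : ℕ, p.Prime → n < p ^ 2 → d ≤ n / p →
      ∃ A : IntermediateField k Ω, coeffField k x ≤ A ∧ relfinrank (coeffField k x) A ≠ 0 ∧
        Step d A (A ⊔ adjoin k (Set.range x)) ∧
        padicValNat p (relfinrank (coeffField k x) A) = n / p - d) := by
  refine ⟨?_, fun hn d m hd => gcd_gam hn x hx hΩ d m hd,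
    fun d A hA hA0 hst => gam_dvd x hx hΩ A hA hA0 d hst, fun p d hp h1 h2 => ?_⟩
  · rintro rfl d m
    exact octic x hx hΩ d m
  · have : Fact p.Prime := ⟨hp⟩
    exact part_exact x hx hΩ p d h1 h2

end Pool.Agent.Results.MP_eecf71_ag.OcticTable
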