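import Pool.Agent.Helper15.RD.Fb

/-!
# MP_eecf71_ag: the exact index of the accessory extensions for one parameter
-/

set_option autoImplicit false

namespace Pool.Agent.Results.MP_eecf71_ag.OneParameterIndex

open Pool.Agent.Helper15.RD IntermediateField

universe u v

theorem result (k : Type v) (Ω : Type u) [Field k] [IsAlgClosed k] [CharZero k] [Field Ω]
    [IsAlgClosed Ω] [Algebra k Ω] (n : ℕ) (x : Fin n → Ω) (hx : AlgebraicIndependent k x)
    (hΩ : Algebra.IsAlgebraic (adjoin k (Set.range x)) Ω) :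
    (∀ (A0 : IntermediateField k Ω) (m : ℕ), coeffField k x ≤ A0 →
      A0 ≤ adjoin k (Set.range x) →
      ((∀ A : IntermediateField k Ω, A0 ≤ A → relfinrank A0 A ≠ 0 →
        Step 1 A (A ⊔ adjoin k (Set.range x)) → m ∣ relfinrank A0 A) ↔
      m * Monoid.exponent (Im x A0) ∣ Nat.card (Im x A0))) ∧
    (∀ m : ℕ, (∀ A : IntermediateField k Ω, coeffField k x ≤ A →
        relfinrank (coeffField k x) A ≠ 0 →
        Step 1 A (A ⊔ adjoin k (Set.range x)) → m ∣ relfinrank (coeffField k x) A) ↔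
      m * (Finset.Icc 1 n).lcm id ∣ n.factorial) ∧
    (5 ≤ n → ∀ (r : ℕ) (T : ℕ → IntermediateField k Ω), T 0 = coeffField k x →
      (∀ i < r, Step 1 (T i) (T (i + 1))) → (∃ i, x i ∈ T r) →
      ∃ i < r, (∀ j, x j ∉ T i) ∧
        n.factorial ∣ (Finset.Icc 1 n).lcm id * relfinrank (T 0) (T i) ∧
        n ∣ relfinrank (T i) (T r)) :=
  ⟨fun A0 m h1 h2 => index_iff_group x hx hΩ A0 h1 h2 m, fun m => index_iff_sym x hx hΩ m,
    fun hn r T h0 hT hr => tower_one_strong hn x hx hΩ r T h0 hT hr⟩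

end Pool.Agent.Results.MP_eecf71_ag.OneParameterIndex
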