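import Pool.Agent.Helper15.RS.Ps

/-!
# MP_eecf71_ag: the numbers of parameters of nested functions solving the general equation
-/

set_option autoImplicit false

namespace Pool.Agent.Results.MP_eecf71_ag.ParameterSum

open Pool.Agent.Helper15.RD Pool.Agent.Helper15.RS IntermediateField

universe u v

theorem result (k : Type v) (Ω : Type u) [Field k] [IsAlgClosed k] [CharZero k] [Field Ω]
    [IsAlgClosed Ω] [Algebra k Ω] (n : ℕ) (x : Fin n → Ω) (d : ℕ → ℕ) (r : ℕ)
    (T : ℕ → IntermediateField k Ω) (hn : 5 ≤ n) (hx : AlgebraicIndependent k x)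
    (hΩ : Algebra.IsAlgebraic (adjoin k (Set.range x)) Ω) (h0 : T 0 = coeffField k x)
    (hT : ∀ i < r, PStep (d i) (T i) (T (i + 1))) (hr : ∃ i, x i ∈ T r) :
    ∃ i < r, (∀ j, x j ∉ T i) ∧ ∀ p : ℕ, p.Prime →
      n / p ≤ d i +
        ∑ j ∈ Finset.range i, min (d j) (padicValNat p (relfinrank (T j) (T (j + 1)))) :=
  main hn x hx hΩ d r T h0 hT hr

end Pool.Agent.Results.MP_eecf71_ag.ParameterSum
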